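import Pool.Agent.Q5.VL.Abs

/-! The law for the cyclic subgroups of a Galois group. -/

set_option autoImplicit false
set_option linter.unusedSectionVars false

namespace Pool.Agent.Q5.WL

open NumberField Pool.Agent.W353.NF Pool.Agent.W401.Cheb Pool.Agent.Q5.BR Pool.Agent.Q5.VL

variable {K : Type} [Field K] [NumberField K]

/-- **Cyclic subgroups.**  `L/K` is a finite Galois extension. -/
theorem cyclic_law (L : IntermediateField K (AlgebraicClosure K)) [FiniteDimensional K L]
    [Normal K L] {P : ∀ (F : Type) [Field F] [NumberField F] [Algebra K F], ℤ → Prop}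
    (hP : IsLaw P) (t : ℤ)
    (h : ∀ (g : L ≃ₐ[K] L) [NumberField (IntermediateField.fixedField (Subgroup.zpowers g))],
      P (IntermediateField.fixedField (Subgroup.zpowers g)) t) :
    P K (Nat.card (L ≃ₐ[K] L) * t) := by
  obtain ⟨ι, _, B, nn, hB, hrel⟩ := HR.artin_relation L
  have hfd : ∀ j, FiniteDimensional K (IntermediateField.fixedField (B j)) := fun j => inferInstance
  have hnf : ∀ j, NumberField (IntermediateField.fixedField (B j)) :=
    fun j => NumberField.of_module_finite K _
  let Y : ι → Ext K := fun j => @Ext.mk K _ _ (IntermediateField.fixedField (B j)) _ (hnf j) _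
  have key : ∀ B' : Subgroup (L ≃ₐ[K] L), (∃ g, B' = Subgroup.zpowers g) →
      ∀ _ : NumberField (IntermediateField.fixedField B'), P (IntermediateField.fixedField B') t := by
    rintro _ ⟨g, rfl⟩ hn
    exact h g
  exact hP.step K ι Y nn _ hrel t fun j => key (B j) (hB j) (hnf j)

end Pool.Agent.Q5.WL
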