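import Pool.Agent.Q5.WL.Loc

/-! The fibre averages do not change under isomorphisms of finite fields. -/

set_option autoImplicit false
set_option linter.unusedSectionVars false

namespace Pool.Agent.Q5.WL

open NumberField IsDedekindDomain Filter Topology Polynomial
open Pool.Agent.W353.FB (LocalValue ValueAt Uniq IsTrace Fibration nagaoValue)

theorem isTrace_iso {R : Type} [CommRing R] {n : ℕ} {X : Set (MvPolynomial (Fin n) R)} {r i : ℕ}
    {κ κ' : Type} [Field κ] [Field κ'] (e : κ ≃+* κ') {φ : R →+* κ} {a : ℝ}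
    (h : IsTrace X r i φ a) : IsTrace X r i ((e : κ →+* κ').comp φ) a := by
  obtain ⟨β, h1, h2, h3⟩ := h
  have hc : Nat.card κ' = Nat.card κ := (Nat.card_congr e.toEquiv).symm
  refine ⟨β, h1, fun k z hz => by rw [hc]; exact h2 k z hz, fun κ'' _ _ θ f hf => ?_⟩
  rw [hc] at hf ⊢
  rw [← RingHom.comp_assoc]
  exact h3 κ'' (θ.comp (e : κ →+* κ')) f hf

variable {K : Type} [Field K]

theorem eval_iso {l : ℕ} {κ κ' : Type} [Field κ] [Field κ'] (e : κ ≃+* κ') (φ : 𝓞 K →+* κ)
    (t : Fin l → κ') (g : MvPolynomial (Fin l) (𝓞 K)) :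
    MvPolynomial.eval₂ ((e : κ →+* κ').comp φ) t g =
      e (MvPolynomial.eval₂ φ (fun j => e.symm (t j)) g) := by
  have h := MvPolynomial.hom_eval₂ g φ (e : κ →+* κ') (fun j => e.symm (t j))
  have h2 : (fun j => (e : κ →+* κ') (e.symm (t j))) = t := by
    funext j
    exact e.apply_symm_apply (t j)
  have h3 : (e : κ →+* κ') (MvPolynomial.eval₂ φ (fun j => e.symm (t j)) g) =
      MvPolynomial.eval₂ ((e : κ →+* κ').comp φ) (fun j => (e : κ →+* κ') (e.symm (t j))) g := h
  rw [h2] at h3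
  exact h3.symm

theorem isAverage_iso (f : Fibration K) {i : ℕ} {κ κ' : Type} [Field κ] [Field κ']
    (e : κ ≃+* κ') {φ : 𝓞 K →+* κ} {A : ℝ} (h : f.IsAverage i φ A) :
    f.IsAverage i ((e : κ →+* κ').comp φ) A := by
  obtain ⟨a, h1, h2⟩ := h
  have hc : Nat.card κ' = Nat.card κ := (Nat.card_congr e.toEquiv).symm
  let E : (Fin f.l → κ') ≃ (Fin f.l → κ) := Equiv.arrowCongr (Equiv.refl _) e.symm.toEquiv
  have hE : ∀ t, E t = fun j => e.symm (t j) := fun t => rfl
  have hmem : ∀ t, t ∈ f.points ((e : κ →+* κ').comp φ) ↔ E t ∈ f.points φ := by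
    intro t
    unfold Fibration.points
    rw [Set.mem_ofPred_eq, Set.mem_ofPred_eq, hE]
    constructor
    · rintro ⟨h3, h4⟩
      refine ⟨fun g hg => ?_, fun h5 => ?_⟩
      · have h5 := h3 g hg
        rw [eval_iso] at h5
        exact (map_eq_zero_iff e e.injective).1 h5
      · apply h4
        rw [eval_iso, h5, map_zero]
    · rintro ⟨h3, h4⟩
      refine ⟨fun g hg => ?_, fun h5 => ?_⟩
      · rw [eval_iso, h3 g hg, map_zero]
      · rw [eval_iso] at h5
        exact h4 ((map_eq_zero_iff e e.injective).1 h5)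
  refine ⟨fun t => a (E t), fun t ht => ?_, ?_⟩
  · have h3 := isTrace_iso e (h1 (E t) ((hmem t).1 ht))
    have h4 : (e : κ →+* κ').comp (MvPolynomial.eval₂Hom φ (E t)) =
        MvPolynomial.eval₂Hom ((e : κ →+* κ').comp φ) t := by
      apply RingHom.ext
      intro g
      rw [hE]
      exact (eval_iso e φ t g).symm
    rw [h4] at h3
    exact h3
  · rw [h2, hc]
    congr 1
    rw [finsum_mem_def, finsum_mem_def]
    refine (finsum_comp_equiv E).symm.trans (finsum_congr fun t => ?_)
    by_cases ht : t ∈ f.points ((e : κ →+* κ').comp φ)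
    · rw [Set.indicator_of_mem ht, Set.indicator_of_mem ((hmem t).1 ht)]
    · rw [Set.indicator_of_notMem ht, Set.indicator_of_notMem (fun h => ht ((hmem t).2 h))]

theorem inv_nagao [NumberField K] (f : Fibration K) {n : ℕ}
    (B : Set (MvPolynomial (Fin n) (𝓞 K))) (g : ℕ) : Inv (nagaoValue f B g) := by
  rintro κ κ' _ _ _ _ e φ z ⟨A, a, h1, h2, h3⟩
  exact ⟨A, a, isAverage_iso f e h1, isTrace_iso e h2, h3⟩

/-- the fibre average of the traces on `H²` -/
def avTwo (f : Fibration K) : LocalValue K := fun _ _ φ z => f.IsAverage 2 φ z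

theorem inv_two [NumberField K] (f : Fibration K) : Inv (avTwo f) := by
  intro κ κ' _ _ _ _ e φ z h
  exact isAverage_iso f e h

theorem uniq_two (f : Fibration K) : Uniq (avTwo f) := by
  intro κ _ _ φ z z' h h'
  have h3 := f.one_le
  exact Pool.Agent.W353.FB.average_unique f (by omega) h h'

end Pool.Agent.Q5.WL
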