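import Pool.Agent.Q5.WL.Taub
import Pool.Agent.W353.FB.Main

/-! Values at the residue fields of the primes of all number fields. -/

set_option autoImplicit false
set_option linter.unusedSectionVars false

namespace Pool.Agent.Q5.WL

open NumberField IsDedekindDomain Filter Topology Polynomial Pool.Agent.W353.NF
  Pool.Agent.W401.Cheb Pool.Agent.Q5.BR Pool.Agent.Q5.VL
open Pool.Agent.W353.FB (LocalValue ValueAt Uniq)

/-- two finite fields with the same number of elements over a ring -/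
theorem exists_iso {R : Type} [CommRing R] {κ κ' : Type} [Field κ] [Field κ'] [Finite κ]
    [Finite κ'] (φ : R →+* κ) (φ' : R →+* κ') (hk : RingHom.ker φ = RingHom.ker φ')
    (hc : Nat.card κ = Nat.card κ') : ∃ e : κ ≃+* κ', (e : κ →+* κ').comp φ = φ' := by
  classical
  have hfr : Finite (φ.range) := inferInstance
  let _ := Fintype.ofFinite κ
  let _ := Fintype.ofFinite κ'
  have hfin : Finite (R ⧸ RingHom.ker φ) :=
    Finite.of_injective _ (RingHom.kerLift_injective φ)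
  have hpr : (RingHom.ker φ).IsPrime := RingHom.ker_isPrime φ
  have hdom : IsDomain (R ⧸ RingHom.ker φ) := Ideal.Quotient.isDomain _
  let _ : Field (R ⧸ RingHom.ker φ) := (Finite.isField_of_domain _).toField
  let _ : Algebra (R ⧸ RingHom.ker φ) κ := (RingHom.kerLift φ).toAlgebra
  let ψ : R ⧸ RingHom.ker φ →+* κ' := Ideal.Quotient.lift _ φ' (fun a ha => by
    rw [hk] at ha
    exact ha)
  let _ : Algebra (R ⧸ RingHom.ker φ) κ' := ψ.toAlgebra
  have h1 : IsSplittingField (R ⧸ RingHom.ker φ) κ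
    (X ^ Fintype.card κ - X : (R ⧸ RingHom.ker φ)[X]) := FiniteField.isSplittingField_sub κ _
  have h2 : IsSplittingField (R ⧸ RingHom.ker φ) κ'
    (X ^ Fintype.card κ' - X : (R ⧸ RingHom.ker φ)[X]) := FiniteField.isSplittingField_sub κ' _
  have h3 : Fintype.card κ' = Fintype.card κ := by
    rw [← Nat.card_eq_fintype_card, ← Nat.card_eq_fintype_card, hc]
  rw [h3] at h2
  let e : κ ≃ₐ[R ⧸ RingHom.ker φ] κ' :=
    (IsSplittingField.algEquiv κ (X ^ Fintype.card κ - X : (R ⧸ RingHom.ker φ)[X])).trans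
      (IsSplittingField.algEquiv κ' (X ^ Fintype.card κ - X : (R ⧸ RingHom.ker φ)[X])).symm
  refine ⟨e.toRingEquiv, RingHom.ext fun x => ?_⟩
  have h4 := e.commutes (Ideal.Quotient.mk _ x)
  have h5 : algebraMap (R ⧸ RingHom.ker φ) κ (Ideal.Quotient.mk _ x) = φ x :=
    RingHom.kerLift_mk φ x
  have h6 : algebraMap (R ⧸ RingHom.ker φ) κ' (Ideal.Quotient.mk _ x) = φ' x :=
    Ideal.Quotient.lift_mk _ _ _
  rw [h5, h6] at h4
  exact h4

section
variable {K : Type} [Field K] [NumberField K]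

/-- the values do not change under isomorphisms of the finite field -/
def Inv (P : LocalValue K) : Prop :=
  ∀ (κ κ' : Type) [Field κ] [Field κ'] [Finite κ] [Finite κ'] (e : κ ≃+* κ') (φ : 𝓞 K →+* κ)
    (z : ℝ), P κ φ z → P κ' ((e : κ →+* κ').comp φ) z

/-- For all homomorphisms from `𝓞_K` to a finite field `κ` with `q` elements, whose kernel is not one of
finitely many prime ideals, there is a value, of absolute value at most `C q ^ w`. -/
def Tame (P : LocalValue K) (w : ℕ) : Prop :=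
  ∃ (S : Finset (HeightOneSpectrum (𝓞 K))) (C : ℝ), ∀ (κ : Type) [Field κ] [Finite κ]
    (φ : 𝓞 K →+* κ), (∀ v ∈ S, RingHom.ker φ ≠ v.asIdeal) →
    ∃ z : ℝ, P κ φ z ∧ |z| ≤ C * (Nat.card κ : ℝ) ^ w

variable {P : LocalValue K} {w : ℕ} {F : Type} [Field F] [NumberField F] [Algebra K F]

open Classical in
/-- the value at the extension of degree `f` of the residue field of `v` -/
noncomputable def lam (P : LocalValue K) {F : Type} [Field F] [NumberField F] [Algebra K F]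
    (v : HeightOneSpectrum (𝓞 F)) (f : ℕ) : ℝ :=
  if h : ∃ z : ℝ, ∀ (κ : Type) [Field κ] (φ : 𝓞 F →+* κ), RingHom.ker φ = v.asIdeal →
    Nat.card κ = Ideal.absNorm v.asIdeal ^ f → P κ (φ.comp (algebraMap (𝓞 K) (𝓞 F))) z
  then h.choose else 0

/-- the primes above a finite set -/
theorem finite_over (F : Type) [Field F] [NumberField F] [Algebra K F]
    (S : Finset (HeightOneSpectrum (𝓞 K))) :
    {v : HeightOneSpectrum (𝓞 F) | v.under (𝓞 K) ∈ S}.Finite := by
  have : {v : HeightOneSpectrum (𝓞 F) | v.under (𝓞 K) ∈ S} =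
      ⋃ u ∈ S, {v : HeightOneSpectrum (𝓞 F) | v.under (𝓞 K) = u} := by
    ext v
    simp
  rw [this]
  exact S.finite_toSet.biUnion fun u _ => above_finite u

theorem finite_of_card {v : HeightOneSpectrum (𝓞 F)} {f : ℕ} {κ : Type} [Field κ]
    (h : Nat.card κ = Ideal.absNorm v.asIdeal ^ f) : Finite κ := by
  refine Nat.finite_of_card_ne_zero ?_
  rw [h]
  have h1 := Pool.Agent.W353.PV.one_lt_norm v
  have h2 : 1 < Ideal.absNorm v.asIdeal := by exact_mod_cast h1
  exact pow_ne_zero _ (by omega)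

/-- the values of `lam` -/
theorem lam_spec {S : Finset (HeightOneSpectrum (𝓞 K))} {C : ℝ}
    (hT : ∀ (κ : Type) [Field κ] [Finite κ] (φ : 𝓞 K →+* κ),
      (∀ v ∈ S, RingHom.ker φ ≠ v.asIdeal) → ∃ z : ℝ, P κ φ z ∧ |z| ≤ C * (Nat.card κ : ℝ) ^ w)
    (hu : Uniq P) (hi : Inv P) {v : HeightOneSpectrum (𝓞 F)} (hv : v.under (𝓞 K) ∉ S) {f : ℕ}
    (hf : 1 ≤ f) :
    (∀ (κ : Type) [Field κ] (φ : 𝓞 F →+* κ), RingHom.ker φ = v.asIdeal →
      Nat.card κ = Ideal.absNorm v.asIdeal ^ f →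
        P κ (φ.comp (algebraMap (𝓞 K) (𝓞 F))) (lam P v f)) ∧
    |lam P v f| ≤ C * ((Ideal.absNorm v.asIdeal : ℝ) ^ f) ^ w := by
  obtain ⟨κ, _, _, φ, hk, hc⟩ := Pool.Agent.W353.PV.exists_ext v f hf
  have hker : RingHom.ker (φ.comp (algebraMap (𝓞 K) (𝓞 F))) = (v.under (𝓞 K)).asIdeal := by
    rw [← RingHom.comap_ker, hk]
    rfl
  obtain ⟨z, hz, hzC⟩ := hT κ (φ.comp (algebraMap (𝓞 K) (𝓞 F))) (fun u hu' h => hv (by
    have : v.under (𝓞 K) = u := HeightOneSpectrum.ext (hker.symm.trans h)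
    rwa [this]))
  have hall : ∀ (κ' : Type) [Field κ'] (φ' : 𝓞 F →+* κ'), RingHom.ker φ' = v.asIdeal →
      Nat.card κ' = Ideal.absNorm v.asIdeal ^ f →
        P κ' (φ'.comp (algebraMap (𝓞 K) (𝓞 F))) z := by
    intro κ' _ φ' hk' hc'
    have hfin' : Finite κ' := finite_of_card hc'
    obtain ⟨e, he⟩ := exists_iso φ φ' (hk.trans hk'.symm) (hc.trans hc'.symm)
    have h1 := hi κ κ' e _ z hz
    rw [← RingHom.comp_assoc, he] at h1
    exact h1
  have hex : ∃ z : ℝ, ∀ (κ : Type) [Field κ] (φ : 𝓞 F →+* κ), RingHom.ker φ = v.asIdeal →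
    Nat.card κ = Ideal.absNorm v.asIdeal ^ f → P κ (φ.comp (algebraMap (𝓞 K) (𝓞 F))) z := ⟨z, hall⟩
  have hlam : lam P v f = hex.choose := by
    unfold lam
    rw [dif_pos hex]
  have hspec := hex.choose_spec
  rw [← hlam] at hspec
  refine ⟨hspec, ?_⟩
  have h2 : lam P v f = z := hu κ _ _ _ (hspec κ φ hk hc) hz
  rw [h2]
  refine hzC.trans (le_of_eq ?_)
  rw [hc]
  push_cast
  rfl

/-- the values for a field: `b` is a system of values outside `R` -/
def IsVal (P : LocalValue K) {F : Type} [Field F] [NumberField F] [Algebra K F]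
    (R : Finset (HeightOneSpectrum (𝓞 F))) (b : HeightOneSpectrum (𝓞 F) → ℝ) : Prop :=
  ∀ v ∉ R, ValueAt P v (b v)

theorem isVal_lam {S : Finset (HeightOneSpectrum (𝓞 K))} {C : ℝ}
    (hT : ∀ (κ : Type) [Field κ] [Finite κ] (φ : 𝓞 K →+* κ),
      (∀ v ∈ S, RingHom.ker φ ≠ v.asIdeal) → ∃ z : ℝ, P κ φ z ∧ |z| ≤ C * (Nat.card κ : ℝ) ^ w)
    (hu : Uniq P) (hi : Inv P) {v : HeightOneSpectrum (𝓞 F)} (hv : v.under (𝓞 K) ∉ S) {b : ℝ}
    (hb : ValueAt P v b) : b = lam P v 1 := by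
  obtain ⟨κ, _, _, φ, hk, hc⟩ := Pool.Agent.W353.PV.exists_ext v 1 le_rfl
  have h1 := (lam_spec (F := F) hT hu hi hv le_rfl).1 κ φ hk hc
  rw [pow_one] at hc
  exact hu κ _ _ _ (hb κ φ hk hc) h1

end

end Pool.Agent.Q5.WL
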