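import Pool.Agent.Q5.VL.Rel

/-! Sums over the primes of the fields in a relation. -/

set_option autoImplicit false
set_option linter.unusedSectionVars false

namespace Pool.Agent.Q5.WL

open NumberField IsDedekindDomain Filter Topology Pool.Agent.W353.NF
  Pool.Agent.W401.Cheb Pool.Agent.Q5.BR

section
variable {K : Type} [Field K] [NumberField K] {ι : Type} [Fintype ι]

/-- the term of a sum over primes -/
noncomputable def tm {F : Type} [Field F] [NumberField F] (b : HeightOneSpectrum (𝓞 F) → ℂ)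
    (g : ℕ → ℂ) (w : HeightOneSpectrum (𝓞 F)) : ℂ := b w * g (Ideal.absNorm w.asIdeal)

/-- the finite part -/
noncomputable def fp {Y : ι → Ext K} (n : ι → ℤ) (m : ℤ) (b₀ : HeightOneSpectrum (𝓞 K) → ℂ)
    (b : ∀ j, HeightOneSpectrum (𝓞 (Y j).F) → ℂ) (S : Finset (HeightOneSpectrum (𝓞 K)))
    (g : ℕ → ℂ) : ℂ :=
  ∑ v ∈ S, ((m : ℂ) * ∑ w ∈ above K v, tm b₀ g w -
    ∑ j, (n j : ℂ) * ∑ w ∈ above (Y j).F v, tm (b j) g w)

theorem under_self (w : HeightOneSpectrum (𝓞 K)) : w.under (𝓞 K) = w := by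
  apply HeightOneSpectrum.ext
  change w.asIdeal.comap (algebraMap (𝓞 K) (𝓞 K)) = w.asIdeal
  exact Ideal.comap_id _

theorem rdeg_self (w : HeightOneSpectrum (𝓞 K)) : rdeg K w = 1 := by
  have h : Ideal.absNorm w.asIdeal = Ideal.absNorm w.asIdeal ^ rdeg K w :=
    (absNorm_rdeg (K := K) w).trans (congrArg (fun u : HeightOneSpectrum (𝓞 K) =>
      Ideal.absNorm u.asIdeal ^ rdeg K w) (under_self w))
  have h1 := Pool.Agent.W353.PV.one_lt_norm w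
  have h2 : 1 < Ideal.absNorm w.asIdeal := by exact_mod_cast h1
  by_contra h3
  have h4 := rdeg_pos (K := K) w
  have h5 : 2 ≤ rdeg K w := by omega
  have h6 : Ideal.absNorm w.asIdeal ^ 2 ≤ Ideal.absNorm w.asIdeal ^ rdeg K w :=
    Nat.pow_le_pow_right (by omega) h5
  rw [← h] at h6
  nlinarith

theorem none_case {Λ : HeightOneSpectrum (𝓞 K) → ℕ → ℂ} {b₀ : HeightOneSpectrum (𝓞 K) → ℂ}
    {S : Finset (HeightOneSpectrum (𝓞 K))} (h0 : ∀ v ∉ S, b₀ v = Λ v 1) (g : ℕ → ℂ)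
    (w : HeightOneSpectrum (𝓞 K)) (hw : w.under (𝓞 K) ∉ S) :
    tm b₀ g w = Λ (w.under (𝓞 K)) (rdeg K w) *
      g (Ideal.absNorm (w.under (𝓞 K)).asIdeal ^ rdeg K w) := by
  have hw' : w ∉ S := by
    rwa [under_self] at hw
  rw [under_self, rdeg_self, pow_one]
  unfold tm
  rw [h0 w hw']

theorem some_case {F : Type} [Field F] [NumberField F] [Algebra K F]
    {Λ : HeightOneSpectrum (𝓞 K) → ℕ → ℂ} {b : HeightOneSpectrum (𝓞 F) → ℂ}
    {S : Finset (HeightOneSpectrum (𝓞 K))}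
    (hj : ∀ w : HeightOneSpectrum (𝓞 F), w.under (𝓞 K) ∉ S → b w = Λ (w.under (𝓞 K)) (rdeg K w))
    (g : ℕ → ℂ) (w : HeightOneSpectrum (𝓞 F)) (hw : w.under (𝓞 K) ∉ S) :
    tm b g w = Λ (w.under (𝓞 K)) (rdeg K w) *
      g (Ideal.absNorm (w.under (𝓞 K)).asIdeal ^ rdeg K w) := by
  unfold tm
  rw [hj w hw, absNorm_rdeg (K := K) w]

/-- **Sums over the primes of the fields in a relation.** -/
theorem prime_rel {Y : ι → Ext K} {n : ι → ℤ} {m : ℤ}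
    (h : ∀ σ : GK K, ∑ j, n j * (fixn K (Y j).F σ : ℤ) = m) :
    ∃ S₀ : Finset (HeightOneSpectrum (𝓞 K)), ∀ S : Finset (HeightOneSpectrum (𝓞 K)), S₀ ⊆ S →
      ∀ (Λ : HeightOneSpectrum (𝓞 K) → ℕ → ℂ) (b₀ : HeightOneSpectrum (𝓞 K) → ℂ)
      (b : ∀ j, HeightOneSpectrum (𝓞 (Y j).F) → ℂ),
      (∀ v ∉ S, b₀ v = Λ v 1) →
      (∀ j w, w.under (𝓞 K) ∉ S → b j w = Λ (w.under (𝓞 K)) (rdeg K w)) →
      ∀ g : ℕ → ℂ, Summable (tm b₀ g) → (∀ j, Summable (tm (b j) g)) →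
      (m : ℂ) * ∑' v, tm b₀ g v = ∑ j, (n j : ℂ) * ∑' w, tm (b j) g w + fp n m b₀ b S g := by
  classical
  let Y' : Option ι → Ext K := fun o => o.elim (Ext.mk K) Y
  let n' : Option ι → ℤ := fun o => o.elim (-m) n
  have hrel : Rel Y' n' := by
    intro σ
    rw [Fintype.sum_option]
    change (-m) * (fixn K K σ : ℤ) + ∑ j, n j * (fixn K (Y j).F σ : ℤ) = 0
    rw [h σ, fixn_self]
    push_cast
    ring
  obtain ⟨S₀, hS₀⟩ := euler_rel hrel
  refine ⟨S₀, fun S hS Λ b₀ b h0 hj g hs0 hsj => ?_⟩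
  let ℓ : ∀ o : Option ι, HeightOneSpectrum (𝓞 (Y' o).F) → ℂ := fun o => match o with
    | none => tm b₀ g
    | some j => tm (b j) g
  have h1 := hS₀ S hS ℓ (fun v f => Λ v f * g (Ideal.absNorm v.asIdeal ^ f)) (by
      rintro (_ | j)
      · exact hs0
      · exact hsj j) (by
      rintro (_ | j) w hw
      · exact none_case h0 g w hw
      · exact some_case (hj j) g w hw)
  rw [Fintype.sum_option] at h1
  have h2 : ((n' none : ℤ) : ℂ) * ∑' w, ℓ none w = -((m : ℂ) * ∑' v, tm b₀ g v) := by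
    change (((-m : ℤ)) : ℂ) * ∑' w, tm b₀ g w = _
    push_cast
    ring
  have h3 : ∑ v ∈ S, ∑ o, ((n' o : ℤ) : ℂ) * ∑ w ∈ above (Y' o).F v, ℓ o w =
      -fp n m b₀ b S g := by
    unfold fp
    rw [← Finset.sum_neg_distrib]
    refine Finset.sum_congr rfl fun v _ => ?_
    rw [Fintype.sum_option]
    change (((-m : ℤ)) : ℂ) * ∑ w ∈ above K v, tm b₀ g w +
      ∑ j, (n j : ℂ) * ∑ w ∈ above (Y j).F v, tm (b j) g w = _
    push_cast
    ring
  rw [h2, h3] at h1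
  have h4 : ∑ j, ((n' (some j) : ℤ) : ℂ) * ∑' w, ℓ (some j) w =
      ∑ j, (n j : ℂ) * ∑' w, tm (b j) g w := rfl
  rw [h4] at h1
  linear_combination -h1

/-- a bound for the finite part -/
theorem fp_bound {Y : ι → Ext K} (n : ι → ℤ) (m : ℤ) (b₀ : HeightOneSpectrum (𝓞 K) → ℂ)
    (b : ∀ j, HeightOneSpectrum (𝓞 (Y j).F) → ℂ) (S : Finset (HeightOneSpectrum (𝓞 K)))
    (g₀ : ℕ → ℂ) : ∃ C : ℝ, ∀ g : ℕ → ℂ, (∀ q, ‖g q‖ ≤ ‖g₀ q‖) → ‖fp n m b₀ b S g‖ ≤ C := by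
  refine ⟨∑ v ∈ S, (‖(m : ℂ)‖ * ∑ w ∈ above K v, ‖tm b₀ g₀ w‖ +
    ∑ j, ‖(n j : ℂ)‖ * ∑ w ∈ above (Y j).F v, ‖tm (b j) g₀ w‖), fun g hg => ?_⟩
  have h1 : ∀ (F : Type) [Field F] [NumberField F] (b : HeightOneSpectrum (𝓞 F) → ℂ)
      (w : HeightOneSpectrum (𝓞 F)), ‖tm b g w‖ ≤ ‖tm b g₀ w‖ := by
    intro F _ _ b w
    unfold tm
    rw [norm_mul, norm_mul]
    exact mul_le_mul_of_nonneg_left (hg _) (norm_nonneg _)
  unfold fp
  refine (norm_sum_le _ _).trans (Finset.sum_le_sum fun v _ => ?_)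
  refine (norm_sub_le _ _).trans (add_le_add ?_ ?_)
  · rw [norm_mul]
    exact mul_le_mul_of_nonneg_left ((norm_sum_le _ _).trans
      (Finset.sum_le_sum fun w _ => h1 _ _ _)) (norm_nonneg _)
  · refine (norm_sum_le _ _).trans (Finset.sum_le_sum fun j _ => ?_)
    rw [norm_mul]
    exact mul_le_mul_of_nonneg_left ((norm_sum_le _ _).trans
      (Finset.sum_le_sum fun w _ => h1 _ _ _)) (norm_nonneg _)

theorem finite_norm_le (F : Type) [Field F] [NumberField F] (T : ℝ) :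
    {v : HeightOneSpectrum (𝓞 F) | (Ideal.absNorm v.asIdeal : ℝ) ≤ T}.Finite := by
  have h1 : {I : Ideal (𝓞 F) | Ideal.absNorm I ≤ ⌊T⌋₊}.Finite := Ideal.finite_setOfPred_absNorm_le _
  refine Set.Finite.of_finite_image (f := fun w : HeightOneSpectrum (𝓞 F) => w.asIdeal)
    (h1.subset ?_) ?_
  · rintro _ ⟨w, hw, rfl⟩
    exact Nat.le_floor hw
  · intro w _ w' _ h
    exact HeightOneSpectrum.ext h

end

end Pool.Agent.Q5.WL
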