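import Pool.Agent.Q5.WL.Loc
import Pool.Agent.Y707.PR.Sys

/-! The laws for the averages and the residues. -/

set_option autoImplicit false
set_option linter.unusedSectionVars false

namespace Pool.Agent.Q5.WL

open NumberField IsDedekindDomain Filter Topology Polynomial Pool.Agent.W353.NF
  Pool.Agent.W401.Cheb Pool.Agent.Q5.BR Pool.Agent.Q5.VL
open Pool.Agent.W353.FB (LocalValue ValueAt Uniq)

section
variable {K : Type} [Field K] [NumberField K] {P : LocalValue K} {w : ℕ}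

theorem lam_up {S : Finset (HeightOneSpectrum (𝓞 K))} {C : ℝ}
    (hT : ∀ (κ : Type) [Field κ] [Finite κ] (φ : 𝓞 K →+* κ),
      (∀ v ∈ S, RingHom.ker φ ≠ v.asIdeal) → ∃ z : ℝ, P κ φ z ∧ |z| ≤ C * (Nat.card κ : ℝ) ^ w)
    (hu : Uniq P) (hi : Inv P) {F Y : Type} [Field F] [NumberField F] [Algebra K F] [Field Y]
    [NumberField Y] [Algebra F Y] [Algebra K Y] [IsScalarTower K F Y]
    {u : HeightOneSpectrum (𝓞 Y)} (hv : (u.under (𝓞 F)).under (𝓞 K) ∉ S) :
    u.under (𝓞 K) ∉ S ∧ lam P u 1 = lam P (u.under (𝓞 F)) (rdeg F u) := by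
  have halg : (algebraMap (𝓞 F) (𝓞 Y)).comp (algebraMap (𝓞 K) (𝓞 F)) = algebraMap (𝓞 K) (𝓞 Y) := by
    apply RingHom.ext
    intro x
    apply RingOfIntegers.ext
    change algebraMap F Y (algebraMap K F x) = algebraMap K Y x
    rw [← IsScalarTower.algebraMap_apply]
  have hund : (u.under (𝓞 F)).under (𝓞 K) = u.under (𝓞 K) := by
    apply HeightOneSpectrum.ext
    change (u.asIdeal.comap (algebraMap (𝓞 F) (𝓞 Y))).comap (algebraMap (𝓞 K) (𝓞 F)) =
      u.asIdeal.comap (algebraMap (𝓞 K) (𝓞 Y))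
    rw [Ideal.comap_comap, halg]
  have hv' : u.under (𝓞 K) ∉ S := by rwa [← hund]
  refine ⟨hv', ?_⟩
  obtain ⟨κ, _, _, φ, hk, hc⟩ := Pool.Agent.W353.PV.exists_ext u 1 le_rfl
  have h1 := (lam_spec (F := Y) hT hu hi hv' le_rfl).1 κ φ hk hc
  have hk2 : RingHom.ker (φ.comp (algebraMap (𝓞 F) (𝓞 Y))) = (u.under (𝓞 F)).asIdeal := by
    rw [← RingHom.comap_ker, hk]
    rfl
  have hc2 : Nat.card κ = Ideal.absNorm (u.under (𝓞 F)).asIdeal ^ rdeg F u := by
    rw [hc, pow_one, absNorm_rdeg (K := F) u]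
  have h2 := (lam_spec (F := F) hT hu hi hv (rdeg_pos (K := F) u)).1 κ
    (φ.comp (algebraMap (𝓞 F) (𝓞 Y))) hk2 hc2
  rw [RingHom.comp_assoc, halg] at h2
  exact hu κ _ _ _ h1 h2

/-- **The relation for the values.** -/
theorem val_rel (hP : Tame P w) (hu : Uniq P) (hi : Inv P) {F : Type} [Field F] [NumberField F]
    [Algebra K F] {ι : Type} [Fintype ι] {Y : ι → Ext F} [∀ j, Algebra K (Y j).F]
    [∀ j, IsScalarTower K F (Y j).F] {n : ι → ℤ} {m : ℤ}
    (hrel : ∀ σ : GK F, ∑ j, n j * (fixn F (Y j).F σ : ℤ) = m)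
    {R₀ : Finset (HeightOneSpectrum (𝓞 F))} {b₀ : HeightOneSpectrum (𝓞 F) → ℝ}
    (hb₀ : IsVal P R₀ b₀) :
    ∃ (T : ∀ j, Finset (HeightOneSpectrum (𝓞 (Y j).F))) (b : ∀ j, HeightOneSpectrum (𝓞 (Y j).F) → ℝ)
      (S₁ : Finset (HeightOneSpectrum (𝓞 F))) (C : ℝ), (∀ j, IsVal P (T j) (b j)) ∧
      (∀ j, ∀ u ∉ T j, |b j u| ≤ C * (Ideal.absNorm u.asIdeal : ℝ) ^ w) ∧
      (∀ v ∉ S₁, |b₀ v| ≤ C * (Ideal.absNorm v.asIdeal : ℝ) ^ w) ∧
      ∀ g : ℕ → ℂ, Summable (tm (cut R₀ fun v => (b₀ v : ℂ)) g) →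
        (∀ j, Summable (tm (cut (T j) fun v => (b j v : ℂ)) g)) →
        (m : ℂ) * ∑' v, tm (cut R₀ fun v => (b₀ v : ℂ)) g v =
          ∑ j, (n j : ℂ) * ∑' u, tm (cut (T j) fun v => (b j v : ℂ)) g u +
            fp n m (cut R₀ fun v => (b₀ v : ℂ)) (fun j => cut (T j) fun v => (b j v : ℂ)) S₁ g := by
  classical
  obtain ⟨S, C, hT⟩ := hP
  obtain ⟨S₂, hS₂⟩ := prime_rel hrel
  let S₃ : Finset (HeightOneSpectrum (𝓞 F)) := R₀ ∪ (finite_over F S).toFinset
  have hS₃ : ∀ v, v ∉ S₃ → v ∉ R₀ ∧ v.under (𝓞 K) ∉ S := by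
    intro v hv
    rw [Finset.mem_union, not_or, Set.Finite.mem_toFinset] at hv
    exact hv
  let T : ∀ j, Finset (HeightOneSpectrum (𝓞 (Y j).F)) := fun j =>
    (finite_over (Y j).F S₃).toFinset
  have hTj : ∀ j u, u ∉ T j ↔ u.under (𝓞 F) ∉ S₃ := by
    intro j u
    rw [Set.Finite.mem_toFinset]
    rfl
  refine ⟨T, fun j u => lam P u 1, S₂ ∪ S₃, C, fun j u hu' => ?_, fun j u hu' => ?_,
    fun v hv => ?_, fun g hg hgj => ?_⟩
  · have h1 := hS₃ _ ((hTj j u).1 hu')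
    have h2 := (lam_up (Y := (Y j).F) hT hu hi h1.2).1
    intro κ _ φ hk hc
    exact (lam_spec (F := (Y j).F) hT hu hi h2 le_rfl).1 κ φ hk (by rw [hc, pow_one])
  · have h1 := hS₃ _ ((hTj j u).1 hu')
    have h2 := (lam_up (Y := (Y j).F) hT hu hi h1.2).1
    have h3 := (lam_spec (F := (Y j).F) hT hu hi h2 le_rfl).2
    rwa [pow_one] at h3
  · rw [Finset.mem_union, not_or] at hv
    have h1 := hS₃ v hv.2
    have h2 := isVal_lam hT hu hi h1.2 (hb₀ v h1.1)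
    have h3 := (lam_spec (F := F) hT hu hi h1.2 le_rfl).2
    rw [h2]
    rwa [pow_one] at h3
  · refine hS₂ (S₂ ∪ S₃) Finset.subset_union_left (fun v f => (lam P v f : ℂ)) _ _ ?_ ?_ g hg hgj
    · intro v hv
      rw [Finset.mem_union, not_or] at hv
      have h1 := hS₃ v hv.2
      unfold cut
      rw [if_neg h1.1]
      exact congrArg _ (isVal_lam hT hu hi h1.2 (hb₀ v h1.1))
    · intro j u hu'
      rw [Finset.mem_union, not_or] at hu'
      have h1 := hS₃ _ hu'.2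
      unfold cut
      rw [if_neg ((hTj j u).2 hu'.2)]
      exact congrArg _ (lam_up (Y := (Y j).F) hT hu hi h1.2).2

variable {V : Type} [AddCommGroup V] [Module ℚ V] {ρ : Representation ℚ (GK K) V}

/-- **The law for the averages.** -/
theorem law_val_taub (hP : Tame P w) (hu : Uniq P) (hi : Inv P) (r : ℕ)
    (hV : ∀ N : IntermediateField K (AlgebraicClosure K), FiniteDimensional K N →
      FiniteDimensional ℚ (fixV ρ N.val)) :
    IsLaw (K := K) (fun F _ _ _ t => t ≠ 0 → ∀ (R : Finset (HeightOneSpectrum (𝓞 F)))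
      (b : HeightOneSpectrum (𝓞 F) → ℝ), IsVal P R b →
        Tendsto (fun T : ℝ => (T : ℂ)⁻¹ * ∑' v, tm (cut R fun v => (b v : ℂ)) (wt r T) v) atTop
          (𝓝 (rk ρ F : ℂ))) := by
  classical
  apply isLaw_of_exact
  intro F _ _ _ ι _ Y _ _ nn m hrel hm hj R₀ b₀ hb₀
  obtain ⟨T, b, S₁, C', hb, -, -, hS₁⟩ := val_rel hP hu hi hrel hb₀
  have h3 := fun x : ℝ => hS₁ (wt r x) (summable_wt _ r x) (fun j => summable_wt _ r x)
  obtain ⟨C, hC⟩ := fp_bound nn m (cut R₀ fun v => (b₀ v : ℂ))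
    (fun j => cut (T j) fun v => (b j v : ℂ)) S₁ (fun q => (Real.log q : ℂ) / (q : ℂ) ^ r)
  have h4 : ∀ x : ℝ, ‖fp nn m (cut R₀ fun v => (b₀ v : ℂ))
      (fun j => cut (T j) fun v => (b j v : ℂ)) S₁ (wt r x)‖ ≤ C := by
    intro x
    refine hC _ fun q => ?_
    unfold wt
    split_ifs
    · exact le_rfl
    · rw [norm_zero]
      exact norm_nonneg _
  have h5 : Tendsto (fun x : ℝ => (x : ℂ)⁻¹ * fp nn m (cut R₀ fun v => (b₀ v : ℂ))
      (fun j => cut (T j) fun v => (b j v : ℂ)) S₁ (wt r x)) atTop (𝓝 0) := by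
    rw [tendsto_zero_iff_norm_tendsto_zero]
    have h6 : Tendsto (fun x : ℝ => |x|⁻¹ * C) atTop (𝓝 0) := by
      have h7 : Tendsto (fun x : ℝ => |x|⁻¹) atTop (𝓝 0) :=
        tendsto_inv_atTop_zero.comp tendsto_abs_atTop_atTop
      have h8 := h7.mul_const C
      rwa [zero_mul] at h8
    refine squeeze_zero (fun x => norm_nonneg _) (fun x => ?_) h6
    rw [norm_mul, norm_inv, Complex.norm_real, Real.norm_eq_abs]
    exact mul_le_mul_of_nonneg_left (h4 x) (inv_nonneg.2 (abs_nonneg x))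
  have h6 : Tendsto (fun x : ℝ => ∑ j, (nn j : ℂ) *
      ((x : ℂ)⁻¹ * ∑' w, tm (cut (T j) fun v => (b j v : ℂ)) (wt r x) w)) atTop
      (𝓝 (∑ j, (nn j : ℂ) * (rk ρ (Y j).F : ℂ))) :=
    tendsto_finsetSum _ fun j _ => (hj j (T j) (b j) (hb j)).const_mul _
  have h7 : ∑ j, (nn j : ℂ) * (rk ρ (Y j).F : ℂ) = m * (rk ρ F : ℂ) := by
    exact_mod_cast rank_relation_up ρ hrel hV
  have hm' : (m : ℂ) ≠ 0 := by exact_mod_cast hm
  have h8 := (h6.add h5).const_mul (m : ℂ)⁻¹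
  rw [h7, add_zero, ← mul_assoc, inv_mul_cancel₀ hm', one_mul] at h8
  refine h8.congr fun x => ?_
  have h9 : ∑ j, (nn j : ℂ) * ((x : ℂ)⁻¹ * ∑' w, tm (cut (T j) fun v => (b j v : ℂ)) (wt r x) w) =
      (x : ℂ)⁻¹ * ∑ j, (nn j : ℂ) * ∑' w, tm (cut (T j) fun v => (b j v : ℂ)) (wt r x) w := by
    rw [Finset.mul_sum]
    exact Finset.sum_congr rfl fun j _ => by ring
  rw [h9, ← mul_add, ← h3 x]
  field_simp

/-- the weight of the series -/
noncomputable def gs (s : ℂ) (q : ℕ) : ℂ := (Real.log q : ℂ) * (q : ℂ) ^ (-s)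

theorem summable_gs {F : Type} [Field F] [NumberField F] {R S : Finset (HeightOneSpectrum (𝓞 F))}
    {b : HeightOneSpectrum (𝓞 F) → ℝ} {C : ℝ}
    (hb : ∀ v ∉ S, |b v| ≤ C * (Ideal.absNorm v.asIdeal : ℝ) ^ w) {s : ℂ} (hs : (w : ℝ) + 1 < s.re) :
    Summable (tm (cut R fun v => (b v : ℂ)) (gs s)) := by
  classical
  have hδ : 0 < (s.re - (w + 1)) / 2 := by linarith
  set δ := (s.re - (w + 1)) / 2 with hδd
  have h1 := ((Pool.Agent.H921R2.TatePole.nm_summable (K := F) (x := 1 + δ)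
    (by linarith)).mul_left (|C| / δ))
  refine Summable.of_norm_bounded_eventually h1 ?_
  rw [eventually_cofinite]
  refine S.finite_toSet.subset fun v hv => ?_
  by_contra hv'
  apply hv
  have hq := Pool.Agent.W353.PV.one_lt_norm v
  have hq0 : (0 : ℝ) < (Ideal.absNorm v.asIdeal : ℝ) := by linarith
  unfold tm gs cut
  have h2 : ‖(if v ∈ R then (0 : ℂ) else (b v : ℂ))‖ ≤ |C| * (Ideal.absNorm v.asIdeal : ℝ) ^ w := by
    split_ifs
    · rw [norm_zero]
      positivity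
    · rw [Complex.norm_real, Real.norm_eq_abs]
      exact (hb v hv').trans (mul_le_mul_of_nonneg_right (le_abs_self C) (by positivity))
  have h3 : ‖(Real.log (Ideal.absNorm v.asIdeal) : ℂ)‖ ≤ (Ideal.absNorm v.asIdeal : ℝ) ^ δ / δ := by
    rw [Complex.norm_real, Real.norm_eq_abs, abs_of_nonneg (Real.log_nonneg hq.le)]
    exact Real.log_le_rpow_div hq0.le hδ
  have h4 : ‖((Ideal.absNorm v.asIdeal : ℕ) : ℂ) ^ (-s)‖ =
      (Ideal.absNorm v.asIdeal : ℝ) ^ (-s.re) := by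
    rw [Complex.norm_natCast_cpow_of_pos (by exact_mod_cast hq0)]
    rw [Complex.neg_re]
  rw [norm_mul, norm_mul, h4]
  have h5 : ‖(if v ∈ R then (0 : ℂ) else (b v : ℂ))‖ *
      (‖(Real.log (Ideal.absNorm v.asIdeal) : ℂ)‖ * (Ideal.absNorm v.asIdeal : ℝ) ^ (-s.re)) ≤
      (|C| * (Ideal.absNorm v.asIdeal : ℝ) ^ w) * ((Ideal.absNorm v.asIdeal : ℝ) ^ δ / δ *
        (Ideal.absNorm v.asIdeal : ℝ) ^ (-s.re)) := by
    refine mul_le_mul h2 (mul_le_mul_of_nonneg_right h3 (by positivity)) (by positivity)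
      (by positivity)
  refine h5.trans (le_of_eq ?_)
  change _ = |C| / δ * (Ideal.absNorm v.asIdeal : ℝ) ^ (-(1 + δ))
  have h6 : (Ideal.absNorm v.asIdeal : ℝ) ^ (-(1 + δ)) = (Ideal.absNorm v.asIdeal : ℝ) ^ w *
      ((Ideal.absNorm v.asIdeal : ℝ) ^ δ * (Ideal.absNorm v.asIdeal : ℝ) ^ (-s.re)) := by
    rw [← Real.rpow_natCast (Ideal.absNorm v.asIdeal : ℝ) w, ← Real.rpow_add hq0,
      ← Real.rpow_add hq0]
    congr 1
    rw [hδd]
    ring
  rw [h6]
  ring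

open Pool.Agent.Y707.PR (series HasResidue)

theorem series_eq {F : Type} [Field F] [NumberField F] (R : Finset (HeightOneSpectrum (𝓞 F)))
    (b : HeightOneSpectrum (𝓞 F) → ℝ) (s : ℂ) :
    series R b s = ∑' v, tm (cut R fun v => (b v : ℂ)) (gs s) v := by
  classical
  unfold series
  have h := tsum_subtype {v : HeightOneSpectrum (𝓞 F) | v ∉ R} (fun v => (b v : ℂ) *
    (Real.log (Ideal.absNorm v.asIdeal) : ℂ) * (Ideal.absNorm v.asIdeal : ℂ) ^ (-s))
  refine h.trans (tsum_congr fun v => ?_)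
  unfold tm gs cut Set.indicator
  by_cases hv : v ∈ R
  · rw [if_pos hv, zero_mul, if_neg]
    exact fun h => h hv
  · rw [if_neg hv, if_pos]
    · exact mul_assoc _ _ _
    · exact hv

theorem analytic_fp {F : Type} [Field F] [NumberField F] {ι : Type} [Fintype ι] {Y : ι → Ext F}
    (n : ι → ℤ) (m : ℤ) (b₀ : HeightOneSpectrum (𝓞 F) → ℂ)
    (b : ∀ j, HeightOneSpectrum (𝓞 (Y j).F) → ℂ) (S : Finset (HeightOneSpectrum (𝓞 F))) (s₀ : ℂ) :
    AnalyticAt ℂ (fun s => fp n m b₀ b S (gs s)) s₀ := by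
  have h1 : ∀ (E : Type) [Field E] [NumberField E] (c : HeightOneSpectrum (𝓞 E) → ℂ)
      (u : HeightOneSpectrum (𝓞 E)), Differentiable ℂ fun s => tm c (gs s) u := by
    intro E _ _ c u
    have hq := Pool.Agent.W353.PV.one_lt_norm u
    have h0 : ((Ideal.absNorm u.asIdeal : ℕ) : ℂ) ≠ 0 := by
      have : (Ideal.absNorm u.asIdeal : ℝ) ≠ 0 := by linarith
      exact_mod_cast this
    unfold tm gs
    exact ((differentiable_id.neg.const_cpow (Or.inl h0)).const_mul _).const_mul _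
  have h2 : Differentiable ℂ (fun s => fp n m b₀ b S (gs s)) := by
    unfold fp
    refine Differentiable.fun_sum fun v _ => ?_
    refine Differentiable.sub ?_ ?_
    · exact (Differentiable.fun_sum fun u _ => h1 _ _ _).const_mul _
    · exact Differentiable.fun_sum fun j _ =>
        (Differentiable.fun_sum fun u _ => h1 _ _ _).const_mul _
  exact h2.analyticAt s₀

/-- **The law for the residues.** -/
theorem law_val_res (hP : Tame P w) (hu : Uniq P) (hi : Inv P)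
    (hV : ∀ N : IntermediateField K (AlgebraicClosure K), FiniteDimensional K N →
      FiniteDimensional ℚ (fixV ρ N.val)) :
    IsLaw (K := K) (fun F _ _ _ t => t ≠ 0 → ∀ (R : Finset (HeightOneSpectrum (𝓞 F)))
      (b : HeightOneSpectrum (𝓞 F) → ℝ), IsVal P R b →
        HasResidue R b ((w : ℝ) + 1) (rk ρ F)) := by
  classical
  apply isLaw_of_exact
  intro F _ _ _ ι _ Y _ _ nn m hrel hm hj R₀ b₀ hb₀
  obtain ⟨T, b, S₁, C, hb, hbC, hb₀C, hS₁⟩ := val_rel hP hu hi hrel hb₀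
  have hm' : (m : ℂ) ≠ 0 := by exact_mod_cast hm
  refine ⟨fun s hs => ?_, ?_⟩
  · have h1 := summable_gs (R := R₀) hb₀C hs
    have h2 := h1.subtype {v : HeightOneSpectrum (𝓞 F) | v ∉ R₀}
    refine h2.congr fun v => ?_
    have hv : v.1 ∉ R₀ := v.2
    simp only [Function.comp]
    unfold tm gs cut
    rw [if_neg hv, mul_assoc]
  · choose G hG hG' using fun j => (hj j (T j) (b j) (hb j)).2
    have h7 : ∑ j, (nn j : ℂ) * (rk ρ (Y j).F : ℂ) = m * (rk ρ F : ℂ) := by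
      exact_mod_cast rank_relation_up ρ hrel hV
    refine ⟨fun s => (m : ℂ)⁻¹ * (∑ j, (nn j : ℂ) * G j s +
      fp nn m (cut R₀ fun v => (b₀ v : ℂ)) (fun j => cut (T j) fun v => (b j v : ℂ)) S₁ (gs s)),
      ?_, ?_⟩
    · refine AnalyticAt.mul analyticAt_const (AnalyticAt.add ?_ (analytic_fp _ _ _ _ _ _))
      exact Finset.analyticAt_fun_sum _ fun j _ => analyticAt_const.mul (hG j)
    · have h1 : ∀ᶠ s in 𝓝 ((((w : ℝ) + 1 : ℝ)) : ℂ), ∀ j, (w : ℝ) + 1 < s.re →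
          series (T j) (b j) s = ((rk ρ (Y j).F : ℝ) : ℂ) / (s - (((w : ℝ) + 1 : ℝ) : ℂ)) + G j s :=
        eventually_all.2 fun j => hG' j
      filter_upwards [h1] with s h2 hs
      have h3 := hS₁ (gs s) (summable_gs hb₀C hs) (fun j => summable_gs (hbC j) hs)
      rw [← series_eq, Finset.sum_congr rfl fun j _ => by rw [← series_eq, h2 j hs]] at h3
      have h4 : ∑ j, (nn j : ℂ) * (((rk ρ (Y j).F : ℝ) : ℂ) / (s - (((w : ℝ) + 1 : ℝ) : ℂ)) + G j s) =
          m * (rk ρ F : ℂ) / (s - (((w : ℝ) + 1 : ℝ) : ℂ)) + ∑ j, (nn j : ℂ) * G j s := by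
        rw [← h7, Finset.sum_div, ← Finset.sum_add_distrib]
        refine Finset.sum_congr rfl fun j _ => ?_
        push_cast
        ring
      rw [h4] at h3
      have h5 : series R₀ b₀ s = (m : ℂ)⁻¹ * (m * series R₀ b₀ s) := by
        rw [← mul_assoc, inv_mul_cancel₀ hm', one_mul]
      rw [h5, h3]
      push_cast
      field_simp
      ring

end

end Pool.Agent.Q5.WL
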