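import Pool.Agent.Q5.WL.Prime
import Pool.Agent.Q5.VL.Tate

/-! Averages of the traces of Frobenius over the fields in a relation. -/

set_option autoImplicit false
set_option linter.unusedSectionVars false

namespace Pool.Agent.Q5.WL

open NumberField IsDedekindDomain Filter Topology Polynomial Pool.Agent.W353.NF
  Pool.Agent.W401.Cheb Pool.Agent.Q5.BR Pool.Agent.Q5.VL
open Pool.Agent.W353.EF (IsFrobenius LFun cone)

section
variable {K₀ F : Type} [Field K₀] [Field F] [NumberField F] [Algebra K₀ F] {n : ℕ}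
  {X : Set (MvPolynomial (Fin n) (𝓞 K₀))} {d i N : ℕ}

/-- uniqueness of the power sums of the eigenvalues -/
theorem frob_sum_unique (hi : i ≤ 2 * d) {w : HeightOneSpectrum (𝓞 F)} {α α' : Fin N → ℂ}
    (h : IsFrobenius X d i w α) (h' : IsFrobenius X d i w α') (f : ℕ) :
    ∑ j, α j ^ f = ∑ j, α' j ^ f := by
  obtain ⟨β, h1, h2, h3⟩ := h
  obtain ⟨β', h1', h2', h3'⟩ := h'
  have h4 : β i = β' i := by
    refine Pool.Agent.W353.PV.mult_unique (D := 2 * d + 1) (one_lt_q w) h2 h2' (fun e he => ?_)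
      (by omega)
    obtain ⟨κ, _, _, φ, hk, hc⟩ := Pool.Agent.W353.PV.exists_ext w e he
    have e1 := h3 κ φ e hk hc
    rw [h3' κ φ e hk hc] at e1
    refine (mul_left_cancel₀ ?_ e1).symm
    have h4 : (1 : ℝ) < (Ideal.absNorm w.asIdeal : ℝ) ^ e := one_lt_pow₀ (one_lt_q w) (by omega)
    intro h5
    have h6 : ((Ideal.absNorm w.asIdeal : ℂ) ^ e) = 1 := sub_eq_zero.1 h5
    have h7 : ((Ideal.absNorm w.asIdeal : ℝ) ^ e) = 1 := by exact_mod_cast h6
    linarith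
  rw [h1, h1'] at h4
  have h5 := congrArg (fun s : Multiset ℂ => (s.map (fun a => a ^ f)).sum) h4
  simp only [Multiset.map_map] at h5
  exact h5

/-- `b v` is the trace of Frobenius at the primes outside `S` -/
def IsTr (X : Set (MvPolynomial (Fin n) (𝓞 K₀))) (d i N : ℕ) {F : Type} [Field F]
    [NumberField F] [Algebra K₀ F] (S : Finset (HeightOneSpectrum (𝓞 F)))
    (b : HeightOneSpectrum (𝓞 F) → ℂ) : Prop :=
  ∀ v ∉ S, ∃ α : Fin N → ℂ, IsFrobenius X d i v α ∧ b v = ∑ j, α j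

open Classical in
/-- the sum of the traces at the primes of residue degree `f` above `v` -/
noncomputable def trf (X : Set (MvPolynomial (Fin n) (𝓞 K₀))) (d i N : ℕ) {F : Type} [Field F]
    [NumberField F] [Algebra K₀ F] (v : HeightOneSpectrum (𝓞 F)) (f : ℕ) : ℂ :=
  if h : ∃ α : Fin N → ℂ, IsFrobenius X d i v α then ∑ j, h.choose j ^ f else 0

theorem IsTr.trf_one (hi : i ≤ 2 * d) {S : Finset (HeightOneSpectrum (𝓞 F))}
    {b : HeightOneSpectrum (𝓞 F) → ℂ} (h : IsTr X d i N S b) {v : HeightOneSpectrum (𝓞 F)}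
    (hv : v ∉ S) : b v = trf X d i N v 1 := by
  obtain ⟨α, hα, hb⟩ := h v hv
  have h1 : ∃ α : Fin N → ℂ, IsFrobenius X d i v α := ⟨α, hα⟩
  unfold trf
  rw [dif_pos h1, hb, ← frob_sum_unique hi hα h1.choose_spec 1]
  simp only [pow_one]

open Classical in
/-- the values outside `S` -/
noncomputable def cut (S : Finset (HeightOneSpectrum (𝓞 F))) (b : HeightOneSpectrum (𝓞 F) → ℂ)
    (v : HeightOneSpectrum (𝓞 F)) : ℂ := if v ∈ S then 0 else b v

open Classical in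
/-- the weight `log q / q ^ j` for `q ≤ T` -/
noncomputable def wt (j : ℕ) (T : ℝ) (q : ℕ) : ℂ :=
  if (q : ℝ) ≤ T then (Real.log q : ℂ) / (q : ℂ) ^ j else 0

theorem summable_wt (b : HeightOneSpectrum (𝓞 F) → ℂ) (j : ℕ) (T : ℝ) :
    Summable (tm b (wt j T)) := by
  refine summable_of_ne_finset_zero (s := (finite_norm_le F T).toFinset) fun v hv => ?_
  rw [Set.Finite.mem_toFinset] at hv
  have hv' : ¬ ((Ideal.absNorm v.asIdeal : ℝ) ≤ T) := hv
  unfold tm wt
  rw [if_neg hv', mul_zero]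

end

section
variable {K : Type} [Field K] [NumberField K] {n : ℕ} {X : Set (MvPolynomial (Fin n) (𝓞 K))}
  {d i N : ℕ} {V : Type} [AddCommGroup V] [Module ℚ V] {ρ : Representation ℚ (GK K) V}

/-- **The law for the averages of the traces.** -/
theorem law_taub (hi : i ≤ 2 * d) (r : ℕ)
    (hV : ∀ N : IntermediateField K (AlgebraicClosure K), FiniteDimensional K N →
      FiniteDimensional ℚ (fixV ρ N.val)) :
    IsLaw (K := K) (fun F _ _ _ t => t ≠ 0 → ∀ (S : Finset (HeightOneSpectrum (𝓞 F)))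
      (b : HeightOneSpectrum (𝓞 F) → ℂ), IsTr X d i N S b →
        Tendsto (fun T : ℝ => (T : ℂ)⁻¹ * ∑' v, tm (cut S b) (wt r T) v) atTop
          (𝓝 (rk ρ F : ℂ))) := by
  classical
  apply isLaw_of_exact
  intro F _ _ _ ι _ Y _ _ nn m hrel hm hj S₀ b₀ hb₀
  obtain ⟨S₁, hS₁⟩ := prime_rel hrel
  have hfin : ∀ j, {w : HeightOneSpectrum (𝓞 (Y j).F) | w.under (𝓞 F) ∈ S₀}.Finite := by
    intro j
    have : {w : HeightOneSpectrum (𝓞 (Y j).F) | w.under (𝓞 F) ∈ S₀} =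
        ⋃ v ∈ S₀, {w : HeightOneSpectrum (𝓞 (Y j).F) | w.under (𝓞 F) = v} := by
      ext w
      simp
    rw [this]
    exact S₀.finite_toSet.biUnion fun v _ => above_finite v
  let T : ∀ j, Finset (HeightOneSpectrum (𝓞 (Y j).F)) := fun j => (hfin j).toFinset
  let b : ∀ j, HeightOneSpectrum (𝓞 (Y j).F) → ℂ := fun j w =>
    trf X d i N (w.under (𝓞 F)) (rdeg F w)
  have hb : ∀ j, IsTr X d i N (T j) (b j) := by
    intro j w hw
    have hw' : w.under (𝓞 F) ∉ S₀ := by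
      intro h
      exact hw ((hfin j).mem_toFinset.2 h)
    obtain ⟨α, hα, -⟩ := hb₀ _ hw'
    have h1 : ∃ α : Fin N → ℂ, IsFrobenius X d i (w.under (𝓞 F)) α := ⟨α, hα⟩
    refine ⟨fun k => h1.choose k ^ rdeg F w, frob_up h1.choose_spec, ?_⟩
    change trf X d i N (w.under (𝓞 F)) (rdeg F w) = _
    unfold trf
    rw [dif_pos h1]
  have h1 : ∀ v ∉ S₁ ∪ S₀, cut S₀ b₀ v = trf X d i N v 1 := by
    intro v hv
    rw [Finset.mem_union, not_or] at hv
    unfold cut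
    rw [if_neg hv.2]
    exact hb₀.trf_one hi hv.2
  have h2 : ∀ j w, w.under (𝓞 F) ∉ S₁ ∪ S₀ →
      cut (T j) (b j) w = trf X d i N (w.under (𝓞 F)) (rdeg F w) := by
    intro j w hw
    rw [Finset.mem_union, not_or] at hw
    unfold cut
    rw [if_neg]
    intro h
    exact hw.2 ((hfin j).mem_toFinset.1 h)
  have h3 := fun x : ℝ => hS₁ (S₁ ∪ S₀) Finset.subset_union_left (trf X d i N) (cut S₀ b₀)
    (fun j => cut (T j) (b j)) h1 h2 (wt r x) (summable_wt _ r x) (fun j => summable_wt _ r x)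
  obtain ⟨C, hC⟩ := fp_bound nn m (cut S₀ b₀) (fun j => cut (T j) (b j)) (S₁ ∪ S₀)
    (fun q => (Real.log q : ℂ) / (q : ℂ) ^ r)
  have h4 : ∀ x : ℝ, ‖fp nn m (cut S₀ b₀) (fun j => cut (T j) (b j)) (S₁ ∪ S₀) (wt r x)‖ ≤ C := by
    intro x
    refine hC _ fun q => ?_
    unfold wt
    split_ifs
    · exact le_rfl
    · rw [norm_zero]
      exact norm_nonneg _
  have h5 : Tendsto (fun x : ℝ => (x : ℂ)⁻¹ *
      fp nn m (cut S₀ b₀) (fun j => cut (T j) (b j)) (S₁ ∪ S₀) (wt r x)) atTop (𝓝 0) := by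
    rw [tendsto_zero_iff_norm_tendsto_zero]
    have h6 : Tendsto (fun x : ℝ => |x|⁻¹ * C) atTop (𝓝 0) := by
      have h7 : Tendsto (fun x : ℝ => |x|⁻¹) atTop (𝓝 0) :=
        tendsto_inv_atTop_zero.comp tendsto_abs_atTop_atTop
      have h8 := h7.mul_const C
      rwa [zero_mul] at h8
    refine squeeze_zero (fun x => norm_nonneg _) (fun x => ?_) h6
    rw [norm_mul, norm_inv, Complex.norm_real, Real.norm_eq_abs]
    exact mul_le_mul_of_nonneg_left (h4 x) (inv_nonneg.2 (abs_nonneg x))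
  have h6 : Tendsto (fun x : ℝ => ∑ j, (nn j : ℂ) *
      ((x : ℂ)⁻¹ * ∑' w, tm (cut (T j) (b j)) (wt r x) w)) atTop
      (𝓝 (∑ j, (nn j : ℂ) * (rk ρ (Y j).F : ℂ))) :=
    tendsto_finsetSum _ fun j _ => (hj j (T j) (b j) (hb j)).const_mul _
  have h7 : ∑ j, (nn j : ℂ) * (rk ρ (Y j).F : ℂ) = m * (rk ρ F : ℂ) := by
    exact_mod_cast rank_relation_up ρ hrel hV
  have hm' : (m : ℂ) ≠ 0 := by exact_mod_cast hm
  have h8 := (h6.add h5).const_mul (m : ℂ)⁻¹
  rw [h7, add_zero, ← mul_assoc, inv_mul_cancel₀ hm', one_mul] at h8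
  refine h8.congr fun x => ?_
  have h9 : ∑ j, (nn j : ℂ) * ((x : ℂ)⁻¹ * ∑' w, tm (cut (T j) (b j)) (wt r x) w) =
      (x : ℂ)⁻¹ * ∑ j, (nn j : ℂ) * ∑' w, tm (cut (T j) (b j)) (wt r x) w := by
    rw [Finset.mul_sum]
    exact Finset.sum_congr rfl fun j _ => by ring
  rw [h9, ← mul_add, ← h3 x]
  field_simp

end

end Pool.Agent.Q5.WL
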