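import Pool.Agent.Q5.WL.Res

/-! The laws for the averages and the residues, without hypotheses on the values. -/

set_option autoImplicit false
set_option linter.unusedSectionVars false

namespace Pool.Agent.Q5.WL

open NumberField IsDedekindDomain Filter Topology Polynomial Pool.Agent.W353.NF
  Pool.Agent.W401.Cheb Pool.Agent.Q5.BR Pool.Agent.Q5.VL
open Pool.Agent.W353.FB (LocalValue ValueAt Uniq)

section
variable {K : Type} [Field K] [NumberField K] {ι : Type} [Fintype ι]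

open Classical in
theorem above_self (v : HeightOneSpectrum (𝓞 K)) :
    ((above K v).filter fun w => rdeg K w = 1).card = 1 := by
  have h : (above K v).filter (fun w => rdeg K w = 1) =
      ({v} : Finset (HeightOneSpectrum (𝓞 K))) := by
    ext w
    rw [Finset.mem_filter, mem_above, Finset.mem_singleton]
    constructor
    · rintro ⟨h3, -⟩
      exact (under_self w).symm.trans h3
    · intro h3
      exact ⟨(under_self w).trans h3, rdeg_self w⟩
  rw [h, Finset.card_singleton]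

/-- in a relation with `m ≠ 0` almost every prime has a prime of degree one above it -/
theorem deg_one {Y : ι → Ext K} {n : ι → ℤ} {m : ℤ}
    (h : ∀ σ : GK K, ∑ j, n j * (fixn K (Y j).F σ : ℤ) = m) (hm : m ≠ 0) :
    ∃ S : Finset (HeightOneSpectrum (𝓞 K)), ∀ v ∉ S, ∃ (j : ι)
      (w : HeightOneSpectrum (𝓞 (Y j).F)), w.under (𝓞 K) = v ∧ rdeg K w = 1 := by
  classical
  let Y' : Option ι → Ext K := fun o => o.elim (Ext.mk K) Y
  let n' : Option ι → ℤ := fun o => o.elim (-m) n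
  have hrel : Rel Y' n' := by
    intro σ
    rw [Fintype.sum_option]
    change (-m) * (fixn K K σ : ℤ) + ∑ j, n j * (fixn K (Y j).F σ : ℤ) = 0
    rw [h σ, fixn_self]
    push_cast
    ring
  obtain ⟨S, hS⟩ := rel_degrees hrel
  refine ⟨S, fun v hv => ?_⟩
  have h1 := hS v hv 1
  rw [Fintype.sum_option] at h1
  have h2 : ((above (Y' none).F v).filter (fun w => rdeg K w = 1)).card = 1 := above_self v
  by_contra hcon
  push Not at hcon
  have h3 : ∀ j : ι, ((above (Y' (some j)).F v).filter (fun w => rdeg K w = 1)).card = 0 := by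
    intro j
    rw [Finset.card_eq_zero]
    change (above (Y j).F v).filter (fun w => rdeg K w = 1) = ∅
    rw [Finset.filter_eq_empty_iff]
    intro w hw
    exact hcon j w (mem_above.1 hw)
  rw [h2, Finset.sum_eq_zero (fun j _ => by rw [h3 j, Nat.cast_zero, mul_zero])] at h1
  apply hm
  change (-m) * _ + 0 = 0 at h1
  rw [Nat.cast_one, mul_one, add_zero] at h1
  exact neg_eq_zero.1 h1

/-- absolute convergence passes to the field in a relation -/
theorem summable_base {Y : ι → Ext K} {n : ι → ℤ} {m : ℤ}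
    (h : ∀ σ : GK K, ∑ j, n j * (fixn K (Y j).F σ : ℤ) = m) (hm : m ≠ 0)
    {S : Finset (HeightOneSpectrum (𝓞 K))} {Λ : HeightOneSpectrum (𝓞 K) → ℕ → ℂ}
    {b₀ : HeightOneSpectrum (𝓞 K) → ℂ} {b : ∀ j, HeightOneSpectrum (𝓞 (Y j).F) → ℂ}
    (h0 : ∀ v ∉ S, b₀ v = Λ v 1)
    (hj : ∀ j w, w.under (𝓞 K) ∉ S → b j w = Λ (w.under (𝓞 K)) (rdeg K w))
    {g : ℕ → ℂ} (hs : ∀ j, Summable (tm (b j) g)) : Summable (tm b₀ g) := by
  classical
  obtain ⟨S₁, hS₁⟩ := deg_one h hm
  let H : (Σ j, HeightOneSpectrum (𝓞 (Y j).F)) → ℝ := fun x => ‖tm (b x.1) g x.2‖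
  have hH : Summable H := by
    rw [summable_sigma_of_nonneg (fun x => norm_nonneg _)]
    exact ⟨fun j => (hs j).norm, Summable.of_finite⟩
  have hmem : ∀ v : {v : HeightOneSpectrum (𝓞 K) // v ∉ S₁ ∪ S}, v.1 ∉ S₁ ∧ v.1 ∉ S := by
    intro v
    have := v.2
    rwa [Finset.mem_union, not_or] at this
  choose jj ww hw hd using fun v : {v : HeightOneSpectrum (𝓞 K) // v ∉ S₁ ∪ S} =>
    hS₁ v.1 (hmem v).1
  let f : {v : HeightOneSpectrum (𝓞 K) // v ∉ S₁ ∪ S} → Σ j, HeightOneSpectrum (𝓞 (Y j).F) :=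
    fun v => ⟨jj v, ww v⟩
  have hinj : Function.Injective f := by
    intro v v' hvv
    let u : (Σ j, HeightOneSpectrum (𝓞 (Y j).F)) → HeightOneSpectrum (𝓞 K) :=
      fun x => x.2.under (𝓞 K)
    have h1 : u (f v) = u (f v') := congrArg u hvv
    have h2 : ∀ v, u (f v) = v.1 := fun v => hw v
    rw [h2, h2] at h1
    exact Subtype.ext h1
  have h1 := hH.comp_injective hinj
  have h2 : Summable fun v : {v : HeightOneSpectrum (𝓞 K) // v ∉ S₁ ∪ S} => ‖tm b₀ g v.1‖ := by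
    refine h1.congr fun v => ?_
    change ‖tm (b (jj v)) g (ww v)‖ = ‖tm b₀ g v.1‖
    have h3 : (ww v).under (𝓞 K) ∉ S := by
      rw [hw v]
      exact (hmem v).2
    have h4 := some_case (hj (jj v)) g (ww v) h3
    rw [h4, hw v, hd v, pow_one]
    unfold tm
    rw [h0 v.1 (hmem v).2]
  have h3 : Summable fun v : HeightOneSpectrum (𝓞 K) => ‖tm b₀ g v‖ :=
    (Finset.summable_compl_iff (S₁ ∪ S)).1 h2
  exact h3.of_norm

end

section
variable {K : Type} [Field K] [NumberField K] {P : LocalValue K}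

open Classical in
/-- the value at the prime `v`; it is `0` if there is no value -/
noncomputable def value (P : LocalValue K) {F : Type} [Field F] [NumberField F] [Algebra K F]
    (v : HeightOneSpectrum (𝓞 F)) : ℝ :=
  if h : ∃ z, ValueAt P v z then h.choose else 0

/-- the values at all finite fields -/
theorem lam_iff (hi : Inv P) {F : Type} [Field F] [NumberField F] [Algebra K F]
    {v : HeightOneSpectrum (𝓞 F)} {f : ℕ} {κ : Type} [Field κ] [Finite κ] {φ : 𝓞 F →+* κ}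
    (hk : RingHom.ker φ = v.asIdeal) (hc : Nat.card κ = Ideal.absNorm v.asIdeal ^ f) (z : ℝ) :
    (∀ (κ' : Type) [Field κ'] (φ' : 𝓞 F →+* κ'), RingHom.ker φ' = v.asIdeal →
      Nat.card κ' = Ideal.absNorm v.asIdeal ^ f → P κ' (φ'.comp (algebraMap (𝓞 K) (𝓞 F))) z) ↔
      P κ (φ.comp (algebraMap (𝓞 K) (𝓞 F))) z := by
  refine ⟨fun h => h κ φ hk hc, fun h κ' _ φ' hk' hc' => ?_⟩
  have hfin' : Finite κ' := finite_of_card hc'
  obtain ⟨e, he⟩ := exists_iso φ φ' (hk.trans hk'.symm) (hc.trans hc'.symm)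
  have h1 := hi κ κ' e _ z h
  rw [← RingHom.comp_assoc, he] at h1
  exact h1

theorem choose_congr {p q : ℝ → Prop} (h : ∀ z, p z ↔ q z) (hp : ∃ z, p z) (hq : ∃ z, q z) :
    hp.choose = hq.choose := by
  have : p = q := funext fun z => propext (h z)
  subst this
  rfl

open Classical in
theorem dite_congr' {p q : ℝ → Prop} (h : ∀ z, p z ↔ q z) :
    (if hp : ∃ z, p z then hp.choose else 0) = (if hq : ∃ z, q z then hq.choose else 0) := by
  have : p = q := funext fun z => propext (h z)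
  subst this
  rfl

theorem value_eq {F : Type} [Field F] [NumberField F] [Algebra K F]
    (v : HeightOneSpectrum (𝓞 F)) : value P v = lam P v 1 := by
  unfold value lam
  refine dite_congr' fun z => ?_
  unfold ValueAt
  rw [pow_one]

theorem lam_up' (hi : Inv P) {F Y : Type} [Field F] [NumberField F] [Algebra K F] [Field Y]
    [NumberField Y] [Algebra F Y] [Algebra K Y] [IsScalarTower K F Y]
    (u : HeightOneSpectrum (𝓞 Y)) : lam P u 1 = lam P (u.under (𝓞 F)) (rdeg F u) := by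
  have halg : (algebraMap (𝓞 F) (𝓞 Y)).comp (algebraMap (𝓞 K) (𝓞 F)) = algebraMap (𝓞 K) (𝓞 Y) := by
    apply RingHom.ext
    intro x
    apply RingOfIntegers.ext
    change algebraMap F Y (algebraMap K F x) = algebraMap K Y x
    rw [← IsScalarTower.algebraMap_apply]
  obtain ⟨κ, _, _, φ, hk, hc⟩ := Pool.Agent.W353.PV.exists_ext u 1 le_rfl
  have hk2 : RingHom.ker (φ.comp (algebraMap (𝓞 F) (𝓞 Y))) = (u.under (𝓞 F)).asIdeal := by
    rw [← RingHom.comap_ker, hk]
    rfl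
  have hc2 : Nat.card κ = Ideal.absNorm (u.under (𝓞 F)).asIdeal ^ rdeg F u := by
    rw [hc, pow_one, absNorm_rdeg (K := F) u]
  unfold lam
  refine dite_congr' fun z => ?_
  rw [lam_iff hi hk hc z, lam_iff hi hk2 hc2 z, RingHom.comp_assoc, halg]

/-- **The relation for the values.** -/
theorem value_rel (hi : Inv P) {F : Type} [Field F] [NumberField F]
    [Algebra K F] {ι : Type} [Fintype ι] {Y : ι → Ext F} [∀ j, Algebra K (Y j).F]
    [∀ j, IsScalarTower K F (Y j).F] {n : ι → ℤ} {m : ℤ}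
    (hrel : ∀ σ : GK F, ∑ j, n j * (fixn F (Y j).F σ : ℤ) = m) (hm : m ≠ 0)
    (R₀ : Finset (HeightOneSpectrum (𝓞 F))) :
    ∃ S₁ : Finset (HeightOneSpectrum (𝓞 F)), ∀ g : ℕ → ℂ,
      (∀ j, Summable (tm (cut ∅ fun v : HeightOneSpectrum (𝓞 (Y j).F) => (value P v : ℂ)) g)) →
        Summable (tm (cut R₀ fun v => (value P v : ℂ)) g) ∧
        (m : ℂ) * ∑' v, tm (cut R₀ fun v => (value P v : ℂ)) g v =
          ∑ j, (n j : ℂ) * ∑' u, tm (cut ∅ fun v : HeightOneSpectrum (𝓞 (Y j).F) =>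
            (value P v : ℂ)) g u +
          fp n m (cut R₀ fun v => (value P v : ℂ))
            (fun j => cut ∅ fun v : HeightOneSpectrum (𝓞 (Y j).F) => (value P v : ℂ)) S₁ g := by
  classical
  obtain ⟨S₂, hS₂⟩ := prime_rel hrel
  have h0 : ∀ v ∉ S₂ ∪ R₀, cut R₀ (fun v => (value P v : ℂ)) v = (lam P v 1 : ℂ) := by
    intro v hv
    rw [Finset.mem_union, not_or] at hv
    unfold cut
    rw [if_neg hv.2]
    exact congrArg (fun x : ℝ => (x : ℂ)) (value_eq v)
  have h1 : ∀ j (u : HeightOneSpectrum (𝓞 (Y j).F)), u.under (𝓞 F) ∉ S₂ ∪ R₀ →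
      cut ∅ (fun v : HeightOneSpectrum (𝓞 (Y j).F) => (value P v : ℂ)) u =
        (lam P (u.under (𝓞 F)) (rdeg F u) : ℂ) := by
    intro j u _
    unfold cut
    rw [if_neg (Finset.notMem_empty u)]
    exact congrArg (fun x : ℝ => (x : ℂ)) ((value_eq u).trans (lam_up' (F := F) hi u))
  refine ⟨S₂ ∪ R₀, fun g hg => ?_⟩
  have h2 := summable_base hrel hm (Λ := fun v f => (lam P v f : ℂ)) h0 h1 hg
  exact ⟨h2, hS₂ (S₂ ∪ R₀) Finset.subset_union_left (fun v f => (lam P v f : ℂ)) _ _ h0 h1 g h2 hg⟩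

variable {V : Type} [AddCommGroup V] [Module ℚ V] {ρ : Representation ℚ (GK K) V}

/-- **The law for the averages.** -/
theorem law_value_taub (hi : Inv P) (r : ℕ)
    (hV : ∀ N : IntermediateField K (AlgebraicClosure K), FiniteDimensional K N →
      FiniteDimensional ℚ (fixV ρ N.val)) :
    IsLaw (K := K) (fun F _ _ _ t => t ≠ 0 → ∀ R : Finset (HeightOneSpectrum (𝓞 F)),
        Tendsto (fun T : ℝ => (T : ℂ)⁻¹ * ∑' v, tm (cut R fun v => (value P v : ℂ)) (wt r T) v)
          atTop (𝓝 (rk ρ F : ℂ))) := by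
  classical
  apply isLaw_of_exact
  intro F _ _ _ ι _ Y _ _ nn m hrel hm hj R₀
  obtain ⟨S₁, hS₁⟩ := value_rel (P := P) hi hrel hm R₀
  have h3 := fun x : ℝ => (hS₁ (wt r x) (fun j => summable_wt _ r x)).2
  obtain ⟨C, hC⟩ := fp_bound nn m (cut R₀ fun v => (value P v : ℂ))
    (fun j => cut ∅ fun v : HeightOneSpectrum (𝓞 (Y j).F) => (value P v : ℂ)) S₁
    (fun q => (Real.log q : ℂ) / (q : ℂ) ^ r)
  have h4 : ∀ x : ℝ, ‖fp nn m (cut R₀ fun v => (value P v : ℂ))
      (fun j => cut ∅ fun v : HeightOneSpectrum (𝓞 (Y j).F) => (value P v : ℂ)) S₁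
        (wt r x)‖ ≤ C := by
    intro x
    refine hC _ fun q => ?_
    unfold wt
    split_ifs
    · exact le_rfl
    · rw [norm_zero]
      exact norm_nonneg _
  have h5 : Tendsto (fun x : ℝ => (x : ℂ)⁻¹ * fp nn m (cut R₀ fun v => (value P v : ℂ))
      (fun j => cut ∅ fun v : HeightOneSpectrum (𝓞 (Y j).F) => (value P v : ℂ)) S₁ (wt r x)) atTop
      (𝓝 0) := by
    rw [tendsto_zero_iff_norm_tendsto_zero]
    have h6 : Tendsto (fun x : ℝ => |x|⁻¹ * C) atTop (𝓝 0) := by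
      have h7 : Tendsto (fun x : ℝ => |x|⁻¹) atTop (𝓝 0) :=
        tendsto_inv_atTop_zero.comp tendsto_abs_atTop_atTop
      have h8 := h7.mul_const C
      rwa [zero_mul] at h8
    refine squeeze_zero (fun x => norm_nonneg _) (fun x => ?_) h6
    rw [norm_mul, norm_inv, Complex.norm_real, Real.norm_eq_abs]
    exact mul_le_mul_of_nonneg_left (h4 x) (inv_nonneg.2 (abs_nonneg x))
  have h6 : Tendsto (fun x : ℝ => ∑ j, (nn j : ℂ) *
      ((x : ℂ)⁻¹ * ∑' w, tm (cut ∅ fun v : HeightOneSpectrum (𝓞 (Y j).F) => (value P v : ℂ))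
        (wt r x) w)) atTop (𝓝 (∑ j, (nn j : ℂ) * (rk ρ (Y j).F : ℂ))) :=
    tendsto_finsetSum _ fun j _ => (hj j ∅).const_mul _
  have h7 : ∑ j, (nn j : ℂ) * (rk ρ (Y j).F : ℂ) = m * (rk ρ F : ℂ) := by
    exact_mod_cast rank_relation_up ρ hrel hV
  have hm' : (m : ℂ) ≠ 0 := by exact_mod_cast hm
  have h8 := (h6.add h5).const_mul (m : ℂ)⁻¹
  rw [h7, add_zero, ← mul_assoc, inv_mul_cancel₀ hm', one_mul] at h8
  refine h8.congr fun x => ?_
  have h9 : ∑ j, (nn j : ℂ) * ((x : ℂ)⁻¹ * ∑' w, tm (cut ∅ fun v :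
      HeightOneSpectrum (𝓞 (Y j).F) => (value P v : ℂ)) (wt r x) w) =
      (x : ℂ)⁻¹ * ∑ j, (nn j : ℂ) * ∑' w, tm (cut ∅ fun v : HeightOneSpectrum (𝓞 (Y j).F) =>
        (value P v : ℂ)) (wt r x) w := by
    rw [Finset.mul_sum]
    exact Finset.sum_congr rfl fun j _ => by ring
  rw [h9, ← mul_add, ← h3 x]
  field_simp

open Pool.Agent.Y707.PR (series HasResidue)

theorem summable_series {F : Type} [Field F] [NumberField F]
    (R : Finset (HeightOneSpectrum (𝓞 F))) (b : HeightOneSpectrum (𝓞 F) → ℝ) (s : ℂ) :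
    (Summable fun v : {v : HeightOneSpectrum (𝓞 F) // v ∉ R} => (b v.1 : ℂ) *
      (Real.log (Ideal.absNorm v.1.asIdeal) : ℂ) * (Ideal.absNorm v.1.asIdeal : ℂ) ^ (-s)) ↔
    Summable (tm (cut R fun v => (b v : ℂ)) (gs s)) := by
  classical
  rw [← Finset.summable_compl_iff R (f := tm (cut R fun v => (b v : ℂ)) (gs s))]
  have h1 : (fun v : {v : HeightOneSpectrum (𝓞 F) // v ∉ R} => (b v.1 : ℂ) *
      (Real.log (Ideal.absNorm v.1.asIdeal) : ℂ) * (Ideal.absNorm v.1.asIdeal : ℂ) ^ (-s)) =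
      fun v : {v : HeightOneSpectrum (𝓞 F) // v ∉ R} => tm (cut R fun v => (b v : ℂ)) (gs s) v.1 := by
    funext v
    unfold tm gs cut
    rw [if_neg v.2, mul_assoc]
  rw [h1]

/-- **The law for the residues.** -/
theorem law_value_res (hi : Inv P) (s₀ : ℝ)
    (hV : ∀ N : IntermediateField K (AlgebraicClosure K), FiniteDimensional K N →
      FiniteDimensional ℚ (fixV ρ N.val)) :
    IsLaw (K := K) (fun F _ _ _ t => t ≠ 0 → ∀ R : Finset (HeightOneSpectrum (𝓞 F)),
        HasResidue R (value P) s₀ (rk ρ F)) := by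
  classical
  apply isLaw_of_exact
  intro F _ _ _ ι _ Y _ _ nn m hrel hm hj R₀
  obtain ⟨S₁, hS₁⟩ := value_rel (P := P) hi hrel hm R₀
  have hm' : (m : ℂ) ≠ 0 := by exact_mod_cast hm
  have hsum : ∀ s : ℂ, s₀ < s.re → ∀ j, Summable (tm (cut ∅ fun v :
      HeightOneSpectrum (𝓞 (Y j).F) => (value P v : ℂ)) (gs s)) := fun s hs j =>
    (summable_series ∅ (value P) s).1 ((hj j ∅).1 s hs)
  refine ⟨fun s hs => (summable_series R₀ (value P) s).2 (hS₁ (gs s) (hsum s hs)).1, ?_⟩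
  choose G hG hG' using fun j => (hj j ∅).2
  have h7 : ∑ j, (nn j : ℂ) * (rk ρ (Y j).F : ℂ) = m * (rk ρ F : ℂ) := by
    exact_mod_cast rank_relation_up ρ hrel hV
  refine ⟨fun s => (m : ℂ)⁻¹ * (∑ j, (nn j : ℂ) * G j s +
    fp nn m (cut R₀ fun v => (value P v : ℂ))
      (fun j => cut ∅ fun v : HeightOneSpectrum (𝓞 (Y j).F) => (value P v : ℂ)) S₁ (gs s)),
    ?_, ?_⟩
  · refine AnalyticAt.mul analyticAt_const (AnalyticAt.add ?_ (analytic_fp _ _ _ _ _ _))
    exact Finset.analyticAt_fun_sum _ fun j _ => analyticAt_const.mul (hG j)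
  · have h1 : ∀ᶠ s in 𝓝 ((s₀ : ℝ) : ℂ), ∀ j, s₀ < s.re →
        series (∅ : Finset (HeightOneSpectrum (𝓞 (Y j).F))) (value P) s =
          ((rk ρ (Y j).F : ℝ) : ℂ) / (s - (s₀ : ℂ)) + G j s :=
      eventually_all.2 fun j => hG' j
    filter_upwards [h1] with s h2 hs
    have h3 := (hS₁ (gs s) (hsum s hs)).2
    rw [← series_eq, Finset.sum_congr rfl fun j _ => by rw [← series_eq, h2 j hs]] at h3
    have h4 : ∑ j, (nn j : ℂ) * (((rk ρ (Y j).F : ℝ) : ℂ) / (s - (s₀ : ℂ)) + G j s) =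
        m * (rk ρ F : ℂ) / (s - (s₀ : ℂ)) + ∑ j, (nn j : ℂ) * G j s := by
      rw [← h7, Finset.sum_div, ← Finset.sum_add_distrib]
      refine Finset.sum_congr rfl fun j _ => ?_
      push_cast
      ring
    rw [h4] at h3
    have h5 : series R₀ (value P) s = (m : ℂ)⁻¹ * (m * series R₀ (value P) s) := by
      rw [← mul_assoc, inv_mul_cancel₀ hm', one_mul]
    rw [h5, h3]
    push_cast
    field_simp
    ring

end

end Pool.Agent.Q5.WL
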